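import Pool.Agent.V5helper56.DU.Stm

/-!
# Project DU, job VAL: valuations of `p`-units
-/

set_option autoImplicit false

open NumberField Ideal Module
open scoped nonZeroDivisors

namespace Pool.Agent.V5helper68.DU

open Pool.Agent.V5helper56.DU IsDedekindDomain WithZero

section

variable {p : ℕ} {F : Type} [Field F] [NumberField F]

lemma p_ne (hp : p.Prime) : (p : 𝓞 F) ≠ 0 := by exact_mod_cast hp.ne_zero

/-- a prime above `p` as a point of the height one spectrum -/
def hs (hp : p.Prime) (P : Above p F) : HeightOneSpectrum (𝓞 F) where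
  asIdeal := P.1
  isPrime := P.2.1
  ne_bot := fun h => p_ne (F := F) hp (by
    have h1 := P.2.2
    rwa [h, Ideal.mem_bot] at h1)

lemma finite_above (hp : p.Prime) : Finite (Above p F) := by
  have h1 : (Ideal.span {(p : 𝓞 F)}) ≠ 0 := by
    rw [Ideal.zero_eq_bot, Ne, Ideal.span_singleton_eq_bot]
    exact p_ne hp
  have h2 := Ideal.finite_factors h1
  have : Finite {v : HeightOneSpectrum (𝓞 F) | v.asIdeal ∣ Ideal.span {(p : 𝓞 F)}} := h2
  refine Finite.of_injective (β := {v : HeightOneSpectrum (𝓞 F) | v.asIdeal ∣ Ideal.span {(p : 𝓞 F)}})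
    (fun P => ⟨hs hp P, ?_⟩) ?_
  · show P.1 ∣ Ideal.span {(p : 𝓞 F)}
    rw [Ideal.dvd_span_singleton]
    exact P.2.2
  · intro P P' h
    have h3 := congrArg (fun v => (v : HeightOneSpectrum (𝓞 F)).asIdeal) (congrArg Subtype.val h)
    exact Subtype.ext h3

/-- the valuations -/
noncomputable def vv (hp : p.Prime) : PU p F →* (Above p F → Multiplicative ℤ) where
  toFun u P := ((hs hp P).valuationOfNeZero (u : Fˣ))⁻¹
  map_one' := by
    funext P
    simp
  map_mul' u w := by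
    funext P
    simp only [Subgroup.coe_mul, map_mul, Pi.mul_apply]
    exact mul_inv _ _

lemma le_one_of_int (v : HeightOneSpectrum (𝓞 F)) {x : F} (hx : IsIntegral ℤ x) :
    v.valuation F x ≤ 1 := by
  obtain ⟨y, rfl⟩ : ∃ y : 𝓞 F, (y : F) = x := ⟨⟨x, hx⟩, rfl⟩
  exact v.valuation_le_one y

/-- away from `p` -/
lemma le_one_away (v : HeightOneSpectrum (𝓞 F)) (hv : (p : 𝓞 F) ∉ v.asIdeal) {x : F} {n : ℕ}
    (hx : IsIntegral ℤ ((p : F) ^ n * x)) : v.valuation F x ≤ 1 := by
  have h1 := le_one_of_int v hx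
  have h2 : v.valuation F (p : F) = 1 := by
    have h3 := (HeightOneSpectrum.valuation_eq_one_iff_notMem (K := F) (v := v)
      (r := (p : 𝓞 F))).2 hv
    rwa [map_natCast] at h3
  rwa [map_mul, map_pow, h2, one_pow, one_mul] at h1

lemma val_eq_one (hp : p.Prime) {u : PU p F} (h : vv hp u = 1) (v : HeightOneSpectrum (𝓞 F)) :
    v.valuation F ((u : Fˣ) : F) ≤ 1 ∧ v.valuation F (((u : Fˣ)⁻¹ : Fˣ) : F) ≤ 1 := by
  by_cases hv : (p : 𝓞 F) ∈ v.asIdeal
  · have h1 := congrFun h ⟨v.asIdeal, v.isPrime, hv⟩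
    have h2 : (hs hp ⟨v.asIdeal, v.isPrime, hv⟩) = v := rfl
    have h3 : (v.valuationOfNeZero (u : Fˣ))⁻¹ = 1 := h1
    have h4 : v.valuationOfNeZero (u : Fˣ) = 1 := inv_eq_one.1 h3
    have h5 : v.valuationOfNeZero (u : Fˣ)⁻¹ = 1 := by rw [map_inv, h4, inv_one]
    constructor
    · rw [← HeightOneSpectrum.valuationOfNeZero_eq, h4]
      exact le_refl _
    · rw [← HeightOneSpectrum.valuationOfNeZero_eq, h5]
      exact le_refl _
  · obtain ⟨n, hn1, hn2⟩ := u.2
    exact ⟨le_one_away v hv hn1, le_one_away v hv hn2⟩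

lemma ker_vv (hp : p.Prime) (u : PU p F) :
    vv hp u = 1 ↔ ∃ w : (𝓞 F)ˣ, ((u : Fˣ) : F) = ((w : 𝓞 F) : F) := by
  constructor
  · intro h
    obtain ⟨a, ha⟩ := HeightOneSpectrum.mem_integers_of_valuation_le_one (R := 𝓞 F) F _
      (fun v => (val_eq_one hp h v).1)
    obtain ⟨b, hb⟩ := HeightOneSpectrum.mem_integers_of_valuation_le_one (R := 𝓞 F) F _
      (fun v => (val_eq_one hp h v).2)
    have hinj : Function.Injective (algebraMap (𝓞 F) F) := RingOfIntegers.coe_injective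
    have hab : a * b = 1 := hinj (by
      rw [map_mul, ha, hb, map_one]
      exact Units.mul_inv _)
    have hba : b * a = 1 := by rw [mul_comm]; exact hab
    exact ⟨⟨a, b, hab, hba⟩, ha.symm⟩
  · rintro ⟨w, hw⟩
    funext P
    have h1 : (u : Fˣ) = Units.map (algebraMap (𝓞 F) F : 𝓞 F →* F) w := Units.ext hw
    show ((hs hp P).valuationOfNeZero (u : Fˣ))⁻¹ = 1
    rw [h1, HeightOneSpectrum.valuation_of_unit_eq, inv_one]

end

/-- **VAL.** -/
theorem t_VAL : S_VAL := by
  intro p hp F _ _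
  refine ⟨finite_above hp, vv hp, Fintype.card (ClassGroup (𝓞 F)), Fintype.card_pos, ker_vv hp,
    fun P => ?_⟩
  set h := Fintype.card (ClassGroup (𝓞 F)) with hh
  have hP0 : P.1 ≠ ⊥ := (hs hp P).ne_bot
  have hPm : P.1 ∈ nonZeroDivisors (Ideal (𝓞 F)) := mem_nonZeroDivisors_of_ne_zero hP0
  have hpr : (P.1 ^ h).IsPrincipal := by
    rw [← ClassGroup.mk0_eq_one_iff (pow_mem hPm h)]
    have h1 : ClassGroup.mk0 ⟨P.1, hPm⟩ ^ h = 1 := pow_card_eq_one
    rwa [← map_pow, SubmonoidClass.mk_pow] at h1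
  obtain ⟨g, hg⟩ := hpr.principal
  have hg' : P.1 ^ h = Ideal.span {g} := hg
  have hg0 : g ≠ 0 := by
    rintro rfl
    rw [Ideal.span_singleton_eq_bot.2 rfl] at hg'
    exact hP0 ((pow_eq_zero_iff (Fintype.card_pos.ne' : h ≠ 0)).1 hg')
  obtain ⟨g', hgg⟩ : g ∣ (p : 𝓞 F) ^ h := by
    rw [← Ideal.mem_span_singleton, ← hg']
    exact Ideal.pow_mem_pow P.2.2 h
  have hgF : (g : F) ≠ 0 := fun h0 => hg0 (RingOfIntegers.coe_eq_zero_iff.1 h0)
  have hggF : (p : F) ^ h = (g : F) * (g' : F) := by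
    have := congrArg (algebraMap (𝓞 F) F) hgg
    rwa [map_pow, map_natCast, map_mul] at this
  refine ⟨⟨Units.mk0 (g : F) hgF, h, ?_, ?_⟩, ?_, fun P' hP' => ?_⟩
  · rw [Units.val_mk0, hggF]
    exact ((g.2).mul g'.2).mul g.2
  · rw [Units.val_inv_eq_inv_val, Units.val_mk0, hggF, mul_right_comm, mul_inv_cancel₀ hgF, one_mul]
    exact g'.2
  · show ((hs hp P).valuationOfNeZero (Units.mk0 (g : F) hgF))⁻¹ = Multiplicative.ofAdd (h : ℤ)
    have h1 : (hs hp P).valuationOfNeZero (Units.mk0 (g : F) hgF) =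
        Multiplicative.ofAdd (-(h : ℤ)) := by
      rw [← WithZero.coe_inj, HeightOneSpectrum.valuationOfNeZero_eq, Units.val_mk0]
      have h2 : (hs hp P).valuation F ((algebraMap (𝓞 F) F) g) = (hs hp P).intValuation g :=
        HeightOneSpectrum.valuation_of_algebraMap _ g
      have h3 : multiplicity (hs hp P).asIdeal (Ideal.span {g}) = h := by
        rw [← hg']
        exact multiplicity_pow_self hP0 (fun hu => P.2.1.ne_top (Ideal.isUnit_iff.1 hu)) h
      have h4 := HeightOneSpectrum.intValuation_eq_exp_neg_multiplicity (hs hp P) hg0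
      rw [h3] at h4
      exact h2.trans h4
    rw [h1, ← ofAdd_neg, neg_neg]
  · show ((hs hp P').valuationOfNeZero (Units.mk0 (g : F) hgF))⁻¹ = 1
    have h1 : (hs hp P').valuationOfNeZero (Units.mk0 (g : F) hgF) = 1 := by
      rw [← WithZero.coe_inj, HeightOneSpectrum.valuationOfNeZero_eq, Units.val_mk0]
      refine (HeightOneSpectrum.valuation_eq_one_iff_notMem (K := F) (v := hs hp P') (r := g)).2
        fun hmem => hP' ?_
      have h2 : P.1 ^ h ≤ P'.1 := by
        rw [hg', Ideal.span_singleton_le_iff_mem]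
        exact hmem
      have h3 : P.1 ≤ P'.1 := P'.2.1.le_of_pow_le h2
      have h4 : P.1.IsMaximal := (hs hp P).isMaximal
      exact Subtype.ext (h4.eq_of_le P'.2.1.ne_top h3).symm
    rw [h1, inv_one]

end Pool.Agent.V5helper68.DU
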